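import Pool.Agent.V11330.ET.Box

set_option autoImplicit false

open Set Filter Topology MeasureTheory ProbabilityTheory
open scoped NNReal ENNReal

namespace Pool.Agent.Results.MP_1e851b_pr.CubeMaximizes

open Pool.Agent.V11330.ET Pool.Agent.TH970

/-- `B` is a standard Brownian motion in `ℝ^d` started at the origin. -/
structure IsBM {d : ℕ} {Ω : Type} [MeasurableSpace Ω] (P : Measure Ω)
    (B : Fin d → ℝ≥0 → Ω → ℝ) : Prop where
  brownian : ∀ k, IsBrownianReal (B k) P
  indep : iIndepFun (fun k ω (t : ℝ≥0) => B k t ω) P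

/-- The exit time of the path from the box `{x : |x_k| < a_k for all k}`. -/
noncomputable def exitTime {d : ℕ} {Ω : Type} (a : Fin d → ℝ) (B : Fin d → ℝ≥0 → Ω → ℝ) (ω : Ω) :
    ℝ≥0∞ := ⨅ (t : ℝ≥0) (_ : ∃ k, a k ≤ |B k t ω|), (t : ℝ≥0∞)

/-- The `p`-th moment of the exit time. -/
noncomputable def moment {d : ℕ} {Ω : Type} [MeasurableSpace Ω] (P : Measure Ω)
    (B : Fin d → ℝ≥0 → Ω → ℝ) (a : Fin d → ℝ) (p : ℝ) : ℝ≥0∞ := ∫⁻ ω, exitTime a B ω ^ p ∂P

/-- The first Dirichlet eigenvalue `(π² / 4) ∑ a_k⁻²` of `-Δ` on the box. -/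
noncomputable def eigenvalue {d : ℕ} (a : Fin d → ℝ) : ℝ := Real.pi ^ 2 / 4 * ∑ k, 1 / (a k) ^ 2

section

variable {d : ℕ} {Ω : Type} [MeasurableSpace Ω] {P : Measure Ω} [IsProbabilityMeasure P]
  {X B : Fin d → ℝ≥0 → Ω → ℝ}

lemma lt_exit_iff (hc : ∀ k ω, Continuous (path (X k) ω)) {a : Fin d → ℝ} {t : ℝ≥0} {ω : Ω} :
    (t : ℝ≥0∞) < exitTime a X ω ↔ ∀ k, am (path (X k) ω) t < a k := by
  constructor
  · intro h k
    obtain ⟨s, _, hs, hmax⟩ := exists_mx (w := fun s => |path (X k) ω s|) (hc k ω).abs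
      (zero_le (a := t))
    have hmax' : am (path (X k) ω) t = |path (X k) ω s| := hmax
    rw [hmax']
    by_contra hcon
    push Not at hcon
    have h1 : exitTime a X ω ≤ (s : ℝ≥0∞) := iInf₂_le s ⟨k, hcon⟩
    have h2 : (s : ℝ≥0∞) ≤ t := by exact_mod_cast hs
    exact absurd h (not_lt.2 (h1.trans h2))
  · intro h
    -- an open neighbourhood of t
    have h1 : ∀ k, ∀ᶠ s in 𝓝 t, |path (X k) ω s| < a k := by
      intro k
      have h2 : |path (X k) ω t| < a k := (le_am (hc k ω) le_rfl).trans_lt (h k)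
      exact ((hc k ω).abs.continuousAt.eventually_lt continuousAt_const h2)
    have h2 : ∀ᶠ s in 𝓝 t, ∀ k, |path (X k) ω s| < a k := eventually_all.2 h1
    obtain ⟨δ, hδ, hball⟩ := Metric.eventually_nhds_iff.1 h2
    set t' : ℝ≥0 := t + (Real.toNNReal (δ / 2)) with ht'
    have hδ2 : 0 < Real.toNNReal (δ / 2) := Real.toNNReal_pos.2 (by positivity)
    have h3 : (t : ℝ≥0∞) < t' := by
      rw [ht']
      exact_mod_cast lt_add_of_pos_right t hδ2
    refine h3.trans_le (le_iInf₂ fun s hs => ?_)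
    obtain ⟨k, hk⟩ := hs
    by_contra hcon
    push Not at hcon
    have hst : s < t' := by exact_mod_cast hcon
    have h4 : |path (X k) ω s| < a k := by
      rcases le_or_gt s t with h5 | h5
      · exact (le_am (hc k ω) h5).trans_lt (h k)
      · refine hball ?_ k
        rw [NNReal.dist_eq]
        have h6 : (s : ℝ) < t + δ / 2 := by
          have h7 : (s : ℝ) < (t' : ℝ) := by exact_mod_cast hst
          rw [ht'] at h7
          push_cast at h7
          rwa [Real.coe_toNNReal _ (by positivity)] at h7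
        have h8 : (t : ℝ) < s := by exact_mod_cast h5
        rw [abs_of_pos (by linarith)]
        linarith
    exact absurd h4 (not_lt.2 hk)

lemma tail (hX : ∀ k, CBM P (X k)) (hind : iIndepFun (fun k ω (t : ℝ≥0) => X k t ω) P)
    {a : Fin d → ℝ} (ha : ∀ k, 0 < a k) {t : ℝ≥0} (ht : 0 < t) :
    P {ω | (t : ℝ≥0∞) < exitTime a X ω} = ENNReal.ofReal (∏ k, gsurv (t * (1 / (a k) ^ 2))) := by
  have h1 : {ω | (t : ℝ≥0∞) < exitTime a X ω} =
      ⋂ k ∈ (Finset.univ : Finset (Fin d)),
        (fun ω (t : ℝ≥0) => X k t ω) ⁻¹' {w | am w t < a k} := by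
    ext ω
    simp only [mem_ofPred_eq, lt_exit_iff (fun k ω => (hX k).cont ω), Finset.mem_univ,
      iInter_true, mem_iInter, mem_preimage]
    exact Iff.rfl
  rw [h1, hind.measure_inter_preimage_eq_mul Finset.univ (fun k _ =>
    measurableSet_lt (measurable_am t) measurable_const)]
  have h2 : ∀ k ∈ (Finset.univ : Finset (Fin d)),
      P ((fun ω (t : ℝ≥0) => X k t ω) ⁻¹' {w | am w t < a k}) =
      ENNReal.ofReal (gsurv (t * (1 / (a k) ^ 2))) := by
    intro k _
    have h3 := surv_formula (hX k) ht (ha k)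
    rw [mul_one_div, ← h3, measureReal_def, ENNReal.ofReal_toReal (measure_ne_top _ _)]
    rfl
  rw [Finset.prod_congr rfl h2, ENNReal.ofReal_prod_of_nonneg]
  intro k _
  refine (gsurv_pos ?_).le
  have := ha k
  have ht' : (0 : ℝ) < t := ht
  positivity

omit [MeasurableSpace Ω] in
lemma lt_exit_top {a : Fin d → ℝ} {c : ℝ≥0∞} {ω : Ω} (h : c < exitTime a X ω) : c ≠ ⊤ :=
  (h.trans_le le_top).ne

lemma gsurv_le_one {Y : ℝ≥0 → Ω → ℝ} (hY : CBM P Y) {t : ℝ} (ht : 0 < t) : gsurv t ≤ 1 := by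
  have h1 := surv_formula hY (t := t.toNNReal) (Real.toNNReal_pos.2 ht) (a := 1) one_pos
  rw [Real.coe_toNNReal _ ht.le, one_pow, div_one] at h1
  rw [← h1]
  exact measureReal_le_one

lemma measurable_exit (hX : ∀ k, CBM P (X k)) (a : Fin d → ℝ) : Measurable (exitTime a X) := by
  refine measurable_of_Ioi fun c => ?_
  induction c with
  | top =>
    have : exitTime a X ⁻¹' Ioi ⊤ = ∅ := by ext ω; simp
    rw [this]; exact MeasurableSet.empty
  | coe c =>
    have : exitTime a X ⁻¹' Ioi (c : ℝ≥0∞) = ⋂ k, {ω | am (path (X k) ω) c < a k} := by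
      ext ω
      rw [mem_preimage, mem_Ioi, lt_exit_iff (fun k ω => (hX k).cont ω)]
      simp
    rw [this]
    exact MeasurableSet.iInter fun k =>
      measurableSet_lt ((measurable_am c).comp (hX k).mpath) measurable_const

theorem moment_eq (hd : 0 < d) (hX : ∀ k, CBM P (X k))
    (hind : iIndepFun (fun k ω (t : ℝ≥0) => X k t ω) P)
    {a : Fin d → ℝ} (ha : ∀ k, 0 < a k) {p : ℝ} (hp : 0 < p) :
    moment P X a p = ENNReal.ofReal (p * JJ p (fun k => 1 / (a k) ^ 2)) := by
  have hb : ∀ k, 0 < 1 / (a k) ^ 2 := fun k => by have := ha k; positivity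
  have hg1 : ∀ t, 0 < t → gsurv t ≤ 1 := fun t ht => gsurv_le_one (hX ⟨0, hd⟩) ht
  have hτm := measurable_exit hX a
  have hfin : ∀ᵐ ω ∂P, exitTime a X ω ≠ ⊤ := by
    rw [ae_iff]
    simp only [ne_eq, not_not]
    refine le_antisymm ?_ bot_le
    have h1 : Tendsto (fun n : ℕ => ENNReal.ofReal (gsurv (((n + 1 : ℕ) : ℝ) *
        (1 / (a ⟨0, hd⟩) ^ 2)))) atTop (𝓝 (ENNReal.ofReal 0)) := by
      refine (ENNReal.continuous_ofReal.tendsto 0).comp (tendsto_gsurv.comp ?_)
      exact ((tendsto_natCast_atTop_atTop (R := ℝ)).comp (tendsto_add_atTop_nat 1)).atTop_mul_const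
        (hb _)
    rw [ENNReal.ofReal_zero] at h1
    refine ge_of_tendsto' h1 fun n => ?_
    have h2 : P {ω | exitTime a X ω = ⊤} ≤ P {ω | (((n + 1 : ℕ) : ℝ≥0) : ℝ≥0∞) < exitTime a X ω} := by
      refine measure_mono fun ω hω => ?_
      rw [mem_ofPred_eq] at hω ⊢
      rw [hω]; exact ENNReal.coe_lt_top
    refine h2.trans ?_
    rw [tail hX hind ha (by positivity)]
    refine ENNReal.ofReal_le_ofReal ?_
    rw [← Finset.mul_prod_erase _ _ (Finset.mem_univ (⟨0, hd⟩ : Fin d))]
    have h3 : ∀ k, 0 < ((n + 1 : ℕ) : ℝ) * (1 / (a k) ^ 2) := fun k => by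
      have := hb k; positivity
    refine mul_le_of_le_one_right (gsurv_pos (h3 _)).le ?_
    exact Finset.prod_le_one (fun k _ => (gsurv_pos (h3 k)).le) fun k _ => hg1 _ (h3 k)
  have h1 : moment P X a p = ∫⁻ ω, ENNReal.ofReal ((exitTime a X ω).toReal ^ p) ∂P := by
    unfold moment
    refine lintegral_congr_ae ?_
    filter_upwards [hfin] with ω hω
    rw [← ENNReal.ofReal_rpow_of_nonneg ENNReal.toReal_nonneg hp.le, ENNReal.ofReal_toReal hω]
  rw [h1, lintegral_rpow_eq_lintegral_meas_lt_mul P (ae_of_all _ fun ω => ENNReal.toReal_nonneg)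
    hτm.ennreal_toReal.aemeasurable hp, ENNReal.ofReal_mul hp.le]
  congr 1
  unfold JJ
  rw [ofReal_integral_eq_lintegral_ofReal (integrableOn_JJ hd hg1 hp hb)]
  · refine setLIntegral_congr_fun measurableSet_Ioi fun t ht => ?_
    have ht' : 0 < t := ht
    have h2 : P {ω | t < (exitTime a X ω).toReal} =
        P {ω | ((t.toNNReal : ℝ≥0) : ℝ≥0∞) < exitTime a X ω} := by
      refine measure_congr ?_
      filter_upwards [hfin] with ω hω
      refine propext ?_
      show t < (exitTime a X ω).toReal ↔ ((t.toNNReal : ℝ≥0) : ℝ≥0∞) < exitTime a X ω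
      rw [← ENNReal.ofReal_lt_iff_lt_toReal ht'.le hω]
      rfl
    show P {ω | t < (exitTime a X ω).toReal} * ENNReal.ofReal (t ^ (p - 1)) = _
    rw [h2, tail hX hind ha (Real.toNNReal_pos.2 ht'), Real.coe_toNNReal _ ht'.le,
      ← ENNReal.ofReal_mul]
    exact Finset.prod_nonneg fun k _ => (gsurv_pos (mul_pos ht' (hb k))).le
  · rw [EventuallyLE, ae_restrict_iff' measurableSet_Ioi]
    exact ae_of_all _ fun t ht => (integrand_pos p hb ht).le

end

/-- **Among boxes the cube maximises the normalised exit-time moments.** For every `d ≥ 2`, every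
`p > 0` and every box, `λ₁(R_a)^p E₀[τ_{R_a}^p] ≤ λ₁(Q_d)^p E₀[τ_{Q_d}^p] < ∞`, with equality if and
only if the box is a cube. -/
theorem result (d : ℕ) (hd : 2 ≤ d) (p : ℝ) (hp : 0 < p) (a : Fin d → ℝ) (ha : ∀ k, 0 < a k)
    {Ω : Type} [MeasurableSpace Ω] (P : Measure Ω) [IsProbabilityMeasure P]
    (B : Fin d → ℝ≥0 → Ω → ℝ) (hB : IsBM P B) :
    ENNReal.ofReal (eigenvalue a ^ p) * moment P B a p ≤
      ENNReal.ofReal (eigenvalue (fun _ : Fin d => 1) ^ p) * moment P B (fun _ => 1) p ∧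
    ENNReal.ofReal (eigenvalue (fun _ : Fin d => 1) ^ p) * moment P B (fun _ => 1) p < ⊤ ∧
    (ENNReal.ofReal (eigenvalue a ^ p) * moment P B a p =
      ENNReal.ofReal (eigenvalue (fun _ : Fin d => 1) ^ p) * moment P B (fun _ => 1) p ↔
      ∀ i j, a i = a j) := by
  have hd0 : 0 < d := by omega
  have hdr : (0 : ℝ) < d := by exact_mod_cast hd0
  have hpi := Real.pi_pos
  -- continuous versions
  choose X hX hae using fun k => Pool.Agent.V11330.BMTools.exists_CBM (hB.brownian k)
  have hae' : ∀ᵐ ω ∂P, ∀ k t, X k t ω = B k t ω := ae_all_iff.2 hae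
  have hind : iIndepFun (fun k ω (t : ℝ≥0) => X k t ω) P := by
    refine hB.indep.congr fun k => ?_
    filter_upwards [hae k] with ω hω
    funext t
    exact (hω t).symm
  have hmom : ∀ a : Fin d → ℝ, moment P B a p = moment P X a p := by
    intro a
    unfold moment
    refine lintegral_congr_ae ?_
    filter_upwards [hae'] with ω hω
    congr 1
    unfold exitTime
    simp only [hω]
  have hg1 : ∀ t, 0 < t → gsurv t ≤ 1 := fun t ht => gsurv_le_one (hX ⟨0, hd0⟩) ht
  have ha1 : ∀ k : Fin d, 0 < (fun _ : Fin d => (1 : ℝ)) k := fun _ => one_pos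
  rw [hmom, hmom, moment_eq hd0 hX hind ha hp, moment_eq hd0 hX hind ha1 hp]
  set b : Fin d → ℝ := fun k => 1 / (a k) ^ 2 with hb
  have hbpos : ∀ k, 0 < b k := fun k => by have := ha k; simp only [hb]; positivity
  have hone : (fun k : Fin d => 1 / ((fun _ : Fin d => (1 : ℝ)) k) ^ 2) = fun _ => (1 : ℝ) := by
    funext k; simp
  rw [hone]
  have hJ1 := JJ_pos hd0 hg1 hp (b := fun _ : Fin d => (1 : ℝ)) ha1
  have hJb := JJ_pos hd0 hg1 hp hbpos
  have havg := avg_pos hd0 hbpos
  have hea : eigenvalue a = Real.pi ^ 2 / 4 * d * avg b := by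
    unfold eigenvalue avg
    field_simp
    rfl
  have he1 : eigenvalue (fun _ : Fin d => (1 : ℝ)) = Real.pi ^ 2 / 4 * d := by
    unfold eigenvalue
    simp
  have hc : (0 : ℝ) < Real.pi ^ 2 / 4 * d := by positivity
  rw [hea, he1, Real.mul_rpow hc.le havg.le]
  set c : ℝ := (Real.pi ^ 2 / 4 * d) ^ p with hcdef
  have hcp : 0 < c := Real.rpow_pos_of_pos hc p
  have hap : 0 < avg b ^ p := Real.rpow_pos_of_pos havg p
  rw [← ENNReal.ofReal_mul (by positivity), ← ENNReal.ofReal_mul hcp.le]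
  have hneg : avg b ^ p * avg b ^ (-p) = 1 := by
    rw [← Real.rpow_add havg, add_neg_cancel, Real.rpow_zero]
  have hinj : (∀ i j, b i = b j) ↔ ∀ i j, a i = a j := by
    constructor
    · intro h i j
      have h1 := h i j
      simp only [hb] at h1
      have hi := ha i
      have hj := ha j
      rw [div_eq_div_iff (by positivity) (by positivity), one_mul, one_mul] at h1
      nlinarith [sq_nonneg (a i - a j), sq_nonneg (a i + a j)]
    · intro h i j
      simp only [hb, h i j]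
  have hstrict : (¬ ∀ i j, a i = a j) →
      c * avg b ^ p * (p * JJ p b) < c * (p * JJ p fun _ : Fin d => (1 : ℝ)) := by
    intro hne
    rw [← hinj] at hne
    push Not at hne
    have h1 := JJ_lt hd0 hg1 hp hbpos hne
    have h2 : avg b ^ p * JJ p b < JJ p fun _ : Fin d => (1 : ℝ) := by
      calc avg b ^ p * JJ p b < avg b ^ p * (avg b ^ (-p) * JJ p fun _ : Fin d => (1 : ℝ)) :=
            mul_lt_mul_of_pos_left h1 hap
        _ = _ := by rw [← mul_assoc, hneg, one_mul]
    calc c * avg b ^ p * (p * JJ p b) = c * p * (avg b ^ p * JJ p b) := by ring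
      _ < c * p * (JJ p fun _ : Fin d => (1 : ℝ)) := mul_lt_mul_of_pos_left h2 (by positivity)
      _ = _ := by ring
  have heq : (∀ i j, a i = a j) →
      c * avg b ^ p * (p * JJ p b) = c * (p * JJ p fun _ : Fin d => (1 : ℝ)) := by
    intro he
    rw [← hinj] at he
    have hbc : b = fun _ => avg b := by
      funext k
      unfold avg
      rw [Finset.sum_congr rfl fun j _ => he j k]
      simp only [Finset.sum_const, Finset.card_univ, Fintype.card_fin, nsmul_eq_mul]
      field_simp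
    have h1 : JJ p b = avg b ^ (-p) * JJ p fun _ : Fin d => (1 : ℝ) := by
      conv_lhs => rw [hbc]
      exact JJ_const p havg
    rw [h1]
    calc c * avg b ^ p * (p * (avg b ^ (-p) * JJ p fun _ : Fin d => (1 : ℝ))) =
          c * p * (avg b ^ p * avg b ^ (-p)) * (JJ p fun _ : Fin d => (1 : ℝ)) := by ring
      _ = _ := by rw [hneg]; ring
  have hpos : 0 < c * (p * JJ p fun _ : Fin d => (1 : ℝ)) := by positivity
  refine ⟨?_, ENNReal.ofReal_lt_top, ?_⟩
  · refine ENNReal.ofReal_le_ofReal ?_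
    by_cases h : ∀ i j, a i = a j
    · exact (heq h).le
    · exact (hstrict h).le
  · constructor
    · intro h
      by_contra hne
      have h1 := hstrict hne
      have h2 := (ENNReal.ofReal_lt_ofReal_iff hpos).2 h1
      exact absurd h h2.ne
    · intro h
      rw [heq h]

end Pool.Agent.Results.MP_1e851b_pr.CubeMaximizes
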